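import Pool.Agent.H14R2.RC.Defs2

/-!
RC2, task BLOCKS (helper880 for helper14): disjoint blocks of letters, Markov, and the energy
form.
-/

namespace RC14
open scoped InnerProductSpace
open Finset

namespace BLOCKS

section
variable {G : Type*} [Group G] [Fintype G]

/-- the energy of `f` along the letter `y` -/
noncomputable def Ey (f : G → ℝ) (y : G) : ℝ :=
  ∑ g, f g ^ 2 - (∑ g, f g * (f (g * y) + f (g * y⁻¹))) / 2

lemma Ey_nonneg (f : G → ℝ) (y : G) : 0 ≤ Ey f y := by
  have h1 : ∑ g, f (g * y) ^ 2 = ∑ g, f g ^ 2 :=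
    Fintype.sum_equiv (Equiv.mulRight y) _ _ fun g => rfl
  have h2 : ∑ g, f g * f (g * y⁻¹) = ∑ g, f (g * y) * f g :=
    Fintype.sum_equiv (Equiv.mulRight y⁻¹) _ _ fun g => by simp
  have h3 : ∑ g, (f g - f (g * y)) ^ 2 = 2 * Ey f y := by
    have : ∀ g, (f g - f (g * y)) ^ 2 = f g ^ 2 + f (g * y) ^ 2 - (f g * f (g * y) +
        f (g * y) * f g) := fun g => by ring
    simp only [this, Finset.sum_sub_distrib, Finset.sum_add_distrib]
    rw [h1, ← h2]
    unfold Ey
    simp only [mul_add, Finset.sum_add_distrib]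
    ring
  have h4 : 0 ≤ ∑ g, (f g - f (g * y)) ^ 2 := Finset.sum_nonneg fun _ _ => sq_nonneg _
  linarith

lemma walk_energy {k : ℕ} (hk : 1 ≤ k) (x : Fin k → G) (f : G → ℝ) :
    (k : ℝ) * ∑ g, f g * walk x f g = k * ∑ g, f g ^ 2 - ∑ i, Ey f (x i) := by
  have hk' : (k : ℝ) ≠ 0 := by positivity
  have h1 : ∀ g, f g * walk x f g =
      (∑ i, f g * (f (g * x i) + f (g * (x i)⁻¹))) / (2 * k) := by
    intro g
    unfold walk
    rw [← Finset.mul_sum]
    ring
  simp only [h1, ← Finset.sum_div]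
  rw [Finset.sum_comm]
  simp only [Ey, Finset.sum_sub_distrib, Finset.sum_const, card_univ, Fintype.card_fin,
    nsmul_eq_mul, ← Finset.sum_div]
  field_simp
  ring

/-- the block `e` of a family -/
lemma card_block_le {k0 k : ℕ} (e : Fin k0 → Fin k) (he : Function.Injective e)
    (Q : (Fin k0 → G) → Prop) :
    Nat.card {x : Fin k → G // Q (x ∘ e)} ≤
      Nat.card {y : Fin k0 → G // Q y} * Fintype.card G ^ (k - k0) := by
  classical
  have hc : Fintype.card {i : Fin k // i ∉ Set.range e} = k - k0 := by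
    rw [Fintype.card_subtype_compl]
    have : Fintype.card {i : Fin k // i ∈ Set.range e} = k0 := by
      have h := Fintype.card_congr (Equiv.ofInjective e he)
      rw [Fintype.card_fin] at h
      refine Eq.trans ?_ h.symm
      exact Fintype.card_congr (Equiv.refl _)
    rw [this, Fintype.card_fin]
  have h2 : Nat.card ({y : Fin k0 → G // Q y} × ({i : Fin k // i ∉ Set.range e} → G)) =
      Nat.card {y : Fin k0 → G // Q y} * Fintype.card G ^ (k - k0) := by
    rw [Nat.card_prod, Nat.card_fun, Nat.card_eq_fintype_card (α := G),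
      Nat.card_eq_fintype_card (α := {i : Fin k // i ∉ Set.range e}), hc]
  rw [← h2]
  refine Nat.card_le_card_of_injective
    (fun x : {x : Fin k → G // Q (x ∘ e)} =>
      ((⟨x.1 ∘ e, x.2⟩ : {y : Fin k0 → G // Q y}), fun i : {i : Fin k // i ∉ Set.range e} =>
        x.1 i.1)) ?_
  intro x x' hxx
  simp only [Prod.mk.injEq, Subtype.mk.injEq] at hxx
  ext i
  by_cases hi : i ∈ Set.range e
  · obtain ⟨r, rfl⟩ := hi
    exact congrFun hxx.1 r
  · exact congrFun hxx.2 ⟨i, hi⟩

/-- the `b`-th block of indices -/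
def bl {k0 k : ℕ} (B : ℕ) (hB : B * k0 ≤ k) (b : Fin B) (r : Fin k0) : Fin k :=
  ⟨b.1 * k0 + r.1, by
    have h1 := b.2
    have h2 := r.2
    calc b.1 * k0 + r.1 < b.1 * k0 + k0 := by omega
      _ = (b.1 + 1) * k0 := by ring
      _ ≤ B * k0 := Nat.mul_le_mul_right _ (by omega)
      _ ≤ k := hB⟩

lemma bl_inj {k0 k : ℕ} (B : ℕ) (hB : B * k0 ≤ k) :
    Function.Injective (fun q : Fin B × Fin k0 => bl B hB q.1 q.2) := by
  rintro ⟨b, r⟩ ⟨b', r'⟩ h
  simp only [bl, Fin.mk.injEq] at h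
  have hk0 : 0 < k0 := lt_of_le_of_lt (Nat.zero_le _) r.2
  have h1 : (b.1 * k0 + r.1) / k0 = b.1 := by
    rw [mul_comm, Nat.mul_add_div hk0, Nat.div_eq_of_lt r.2, add_zero]
  have h2 : (b'.1 * k0 + r'.1) / k0 = b'.1 := by
    rw [mul_comm, Nat.mul_add_div hk0, Nat.div_eq_of_lt r'.2, add_zero]
  have h3 : b.1 = b'.1 := by rw [← h1, ← h2, h]
  have h4 : r.1 = r'.1 := by
    rw [h3] at h
    omega
  exact Prod.ext (Fin.ext h3) (Fin.ext h4)

open Classical in
/-- if at least half of the blocks are good then the family is expanding -/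
lemma key {k0 k B : ℕ} (h0 : 1 ≤ k0) (hB : B * k0 ≤ k) (hB1 : 1 ≤ B) (hkB : k ≤ 2 * (B * k0))
    (ε : ℝ) (hε : 0 < ε) (x : Fin k → G)
    (hgood : B ≤ 2 * #{b : Fin B | Expanding ε (x ∘ bl B hB b)}) :
    Expanding (ε / 4) x := by
  set S : Finset (Fin B) := {b : Fin B | Expanding ε (x ∘ bl B hB b)} with hS
  have hk : 1 ≤ k := le_trans (Nat.one_le_iff_ne_zero.mpr (by positivity)) hB
  have hSne : S.Nonempty := by
    rw [← Finset.card_pos]
    omega
  obtain ⟨b0, hb0⟩ := hSne
  rw [hS, Finset.mem_filter] at hb0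
  refine ⟨?_, ?_⟩
  · rw [eq_top_iff, ← hb0.2.1]
    apply Subgroup.closure_mono
    rintro _ ⟨r, rfl⟩
    exact ⟨_, rfl⟩
  · intro f hf
    have hkpos : (0 : ℝ) < k := by exact_mod_cast hk
    have hE := walk_energy hk x f
    have hN : 0 ≤ ∑ g, f g ^ 2 := Finset.sum_nonneg fun _ _ => sq_nonneg _
    have hblock : ∀ b ∈ S, (k0 : ℝ) * ε * ∑ g, f g ^ 2 ≤ ∑ r, Ey f (x (bl B hB b r)) := by
      intro b hb
      rw [hS, Finset.mem_filter] at hb
      have h1 := hb.2.2 f hf
      have h2 := walk_energy h0 (x ∘ bl B hB b) f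
      have hk0pos : (0 : ℝ) < k0 := by exact_mod_cast h0
      have h3 : (k0 : ℝ) * ∑ g, f g * walk (x ∘ bl B hB b) f g ≤
          k0 * ((1 - ε) * ∑ g, f g ^ 2) := mul_le_mul_of_nonneg_left h1 hk0pos.le
      simp only [Function.comp] at h2 h3
      linarith
    have hsum : ∑ q ∈ S ×ˢ (univ : Finset (Fin k0)), Ey f (x (bl B hB q.1 q.2)) ≤
        ∑ i, Ey f (x i) := by
      have h1 : ∑ q ∈ S ×ˢ (univ : Finset (Fin k0)), Ey f (x (bl B hB q.1 q.2)) =
          ∑ i ∈ (S ×ˢ (univ : Finset (Fin k0))).image (fun q => bl B hB q.1 q.2), Ey f (x i) := by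
        rw [Finset.sum_image]
        intro a _ a' _ h
        exact bl_inj B hB h
      rw [h1]
      exact Finset.sum_le_sum_of_subset_of_nonneg (Finset.subset_univ _)
        fun i _ _ => Ey_nonneg f _
    rw [Finset.sum_product] at hsum
    have hlow : (#S : ℝ) * ((k0 : ℝ) * ε * ∑ g, f g ^ 2) ≤ ∑ i, Ey f (x i) := by
      refine le_trans ?_ hsum
      rw [← nsmul_eq_mul]
      exact Finset.card_nsmul_le_sum _ _ _ hblock
    have hB2 : (k : ℝ) / 4 ≤ #S * k0 := by
      have h1 : (k : ℝ) ≤ 2 * (B * k0) := by exact_mod_cast hkB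
      have h2 : (B : ℝ) ≤ 2 * #S := by exact_mod_cast hgood
      have h3 : (B : ℝ) * k0 ≤ 2 * #S * k0 := mul_le_mul_of_nonneg_right h2 (by positivity)
      linarith
    have h5 : (k : ℝ) / 4 * (ε * ∑ g, f g ^ 2) ≤ ∑ i, Ey f (x i) := by
      refine le_trans (mul_le_mul_of_nonneg_right hB2 (by positivity)) ?_
      calc _ = (#S : ℝ) * ((k0 : ℝ) * ε * ∑ g, f g ^ 2) := by ring
        _ ≤ _ := hlow
    have h6 : (k : ℝ) * ∑ g, f g * walk x f g ≤ k * ((1 - ε / 4) * ∑ g, f g ^ 2) := by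
      rw [hE]
      linarith
    exact le_of_mul_le_mul_left h6 hkpos

end

end BLOCKS

open BLOCKS in
/-- number of bad blocks: if a random block of `k0` elements is bad with probability at most
`p`, then with probability at least `1 - 2p` at least half of `B` disjoint blocks are good, which
gives the expansion of the whole family. `GB` is the property of a block: it is
`ε0`-expanding. -/
theorem BLOCKS {G : Type*} [Group G] [Fintype G] (k0 k : ℕ) (h0 : 1 ≤ k0) (hk : k0 ≤ k)
    (ε p : ℝ) (hε : 0 < ε) (hp : 0 ≤ p)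
    (hbad : (Nat.card {x : Fin k0 → G // ¬ Expanding ε x} : ℝ) ≤ p * (Fintype.card G : ℝ) ^ k0) :
    (Nat.card {x : Fin k → G // ¬ Expanding (ε / 4) x} : ℝ) ≤
      2 * p * (Fintype.card G : ℝ) ^ k := by
  classical
  obtain ⟨B, hBdef⟩ : ∃ B, B = k / k0 := ⟨_, rfl⟩
  have hB : B * k0 ≤ k := by rw [hBdef]; exact Nat.div_mul_le_self k k0
  have hB1 : 1 ≤ B := by rw [hBdef]; exact (Nat.one_le_div_iff h0).mpr hk
  have hkB : k ≤ 2 * (B * k0) := by
    have h1 : k < (B + 1) * k0 := by
      rw [hBdef]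
      exact (Nat.div_lt_iff_lt_mul (by omega)).mp (Nat.lt_succ_self _)
    have h2 : 1 * k0 ≤ B * k0 := Nat.mul_le_mul_right _ hB1
    nlinarith
  have hG : 0 < Fintype.card G := Fintype.card_pos
  -- the number of bad blocks
  let nb : (Fin k → G) → ℕ := fun x => #{b : Fin B | ¬ Expanding ε (x ∘ bl B hB b)}
  have h1 : ∀ x : Fin k → G, ¬ Expanding (ε / 4) x → B ≤ 2 * nb x := by
    intro x hx
    by_contra hcon
    push Not at hcon
    apply hx
    apply key h0 hB hB1 hkB ε hε x
    have hcard : #{b : Fin B | Expanding ε (x ∘ bl B hB b)} + nb x = B := by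
      have := Finset.card_filter_add_card_filter_not (s := (univ : Finset (Fin B)))
        (fun b => Expanding ε (x ∘ bl B hB b))
      simpa [nb] using this
    omega
  have h2 : (B : ℝ) * (Nat.card {x : Fin k → G // ¬ Expanding (ε / 4) x} : ℝ) ≤
      2 * ∑ x : Fin k → G, (nb x : ℝ) := by
    have e1 : Nat.card {x : Fin k → G // ¬ Expanding (ε / 4) x} =
        #{x : Fin k → G | ¬ Expanding (ε / 4) x} := by
      rw [Nat.card_eq_fintype_card, Fintype.card_subtype]
    rw [e1, mul_comm, ← nsmul_eq_mul, Finset.mul_sum]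
    refine le_trans (Finset.card_nsmul_le_sum _ (fun x => 2 * (nb x : ℝ)) _ ?_) ?_
    · intro x hx
      rw [Finset.mem_filter] at hx
      exact_mod_cast h1 x hx.2
    · exact Finset.sum_le_sum_of_subset_of_nonneg (Finset.subset_univ _)
        fun i _ _ => by positivity
  have h3 : ∑ x : Fin k → G, (nb x : ℝ) ≤ B * (p * (Fintype.card G : ℝ) ^ k) := by
    have e1 : ∑ x : Fin k → G, (nb x : ℝ) =
        ∑ b : Fin B, (Nat.card {x : Fin k → G // ¬ Expanding ε (x ∘ bl B hB b)} : ℝ) := by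
      have e2 : ∀ b : Fin B, (Nat.card {x : Fin k → G // ¬ Expanding ε (x ∘ bl B hB b)} : ℝ) =
          ∑ x : Fin k → G, if ¬ Expanding ε (x ∘ bl B hB b) then (1 : ℝ) else 0 := by
        intro b
        rw [Nat.card_eq_fintype_card, Fintype.card_subtype, Finset.sum_boole]
      simp only [e2]
      rw [Finset.sum_comm]
      refine Finset.sum_congr rfl fun x _ => ?_
      rw [Finset.sum_boole]
    rw [e1]
    have e3 : ∀ b : Fin B, (Nat.card {x : Fin k → G // ¬ Expanding ε (x ∘ bl B hB b)} : ℝ) ≤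
        p * (Fintype.card G : ℝ) ^ k := by
      intro b
      have hinj : Function.Injective (bl B hB b : Fin k0 → Fin k) := by
        intro r r' hr
        have := bl_inj B hB (a₁ := (b, r)) (a₂ := (b, r')) hr
        exact (Prod.ext_iff.mp this).2
      have h4 := card_block_le (G := G) (bl B hB b) hinj (fun y => ¬ Expanding ε y)
      have h5 : (Nat.card {x : Fin k → G // ¬ Expanding ε (x ∘ bl B hB b)} : ℝ) ≤
          (Nat.card {y : Fin k0 → G // ¬ Expanding ε y} : ℝ) * (Fintype.card G : ℝ) ^ (k - k0) := by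
        exact_mod_cast h4
      refine h5.trans ?_
      calc (Nat.card {y : Fin k0 → G // ¬ Expanding ε y} : ℝ) * (Fintype.card G : ℝ) ^ (k - k0)
          ≤ p * (Fintype.card G : ℝ) ^ k0 * (Fintype.card G : ℝ) ^ (k - k0) :=
            mul_le_mul_of_nonneg_right hbad (by positivity)
        _ = p * (Fintype.card G : ℝ) ^ k := by
            rw [mul_assoc, ← pow_add]
            congr 2
            omega
    calc _ ≤ ∑ _b : Fin B, p * (Fintype.card G : ℝ) ^ k := Finset.sum_le_sum fun b _ => e3 b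
      _ = _ := by simp
  have hBpos : (0 : ℝ) < B := by exact_mod_cast hB1
  have h4 : (B : ℝ) * (Nat.card {x : Fin k → G // ¬ Expanding (ε / 4) x} : ℝ) ≤
      B * (2 * p * (Fintype.card G : ℝ) ^ k) := by
    calc _ ≤ _ := h2
      _ ≤ 2 * (B * (p * (Fintype.card G : ℝ) ^ k)) := by linarith
      _ = _ := by ring
  exact le_of_mul_le_mul_left h4 hBpos

end RC14
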